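import Pool.Agent.Y254.HK.Stm
import Pool.Agent.W46.HD.Tools
import Pool.Agent.W975.HD.Geo1
import Pool.Agent.W505.HD.Geo2

/-!
# Cordoba's argument in the two planes of the configuration (project HK, `S_FcA` and `S_FcB`)
-/

set_option autoImplicit false

open Finset
open scoped Classical

namespace Pool.Agent.Y297HK
open Pool.Agent.W904.AK Pool.Agent.W46.HD Pool.Agent.W46.HM Pool.Agent.Y244.HM
  Pool.Agent.Y254HK

/-- `log (1 + x)` is small compared with `x` -/
theorem log_small {ε x : ℝ} (hε : 0 < ε) (hx : 0 ≤ x) :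
    Real.log (1 + x) ≤ ε * x + (ε + |Real.log ε|) := by
  have h1 : Real.log (ε * (1 + x)) = Real.log ε + Real.log (1 + x) :=
    Real.log_mul hε.ne' (by positivity)
  have h2 := Real.log_le_sub_one_of_pos (show 0 < ε * (1 + x) by positivity)
  have h3 := neg_abs_le (Real.log ε)
  nlinarith

/-- entropy of a dyadic class -/
theorem cls {Θ : Type} [Fintype Θ] {q : Θ → ℝ} (hq : IsLaw q) {n : ℕ} (hn : 1 ≤ n) (m : Θ → ℕ)
    (hm : ∀ z, q z ≠ 0 → m z ≤ n ^ 2 + 1) :
    H q (fun z => Nat.log 2 (m z)) ≤ 2 + Real.log (1 + Real.log n) := by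
  have h1 := H_le_log_card hq (fun z => Nat.log 2 (m z)) (Finset.range (Nat.log 2 (n ^ 2 + 1) + 1))
    (fun z hz => Finset.mem_range.mpr (Nat.lt_succ_of_le (Nat.log_mono_right (hm z hz))))
  rw [Finset.card_range] at h1
  have hn' : (1 : ℝ) ≤ n := by exact_mod_cast hn
  have hln : 0 ≤ Real.log n := Real.log_nonneg hn'
  have h2 : ((Nat.log 2 (n ^ 2 + 1) : ℕ) : ℝ) * Real.log 2 ≤ Real.log 2 + 2 * Real.log n := by
    have h3 : (2 : ℝ) ^ (Nat.log 2 (n ^ 2 + 1)) ≤ 2 * (n : ℝ) ^ 2 := by
      have h4 : 2 ^ Nat.log 2 (n ^ 2 + 1) ≤ n ^ 2 + 1 := Nat.pow_log_le_self 2 (by positivity)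
      have h5 : n ^ 2 + 1 ≤ 2 * n ^ 2 := by nlinarith
      exact_mod_cast h4.trans h5
    have h6 := Real.log_le_log (by positivity) h3
    rw [Real.log_pow, Real.log_mul (by norm_num) (by positivity), Real.log_pow] at h6
    exact_mod_cast h6
  have hl2 := Real.log_two_gt_d9
  have h7 : ((Nat.log 2 (n ^ 2 + 1) : ℕ) : ℝ) ≤ 1 + 3 * Real.log n := by
    by_contra h
    push Not at h
    have h8 : (3 * Real.log n) * Real.log 2 <
        (((Nat.log 2 (n ^ 2 + 1) : ℕ) : ℝ) - 1) * Real.log 2 :=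
      mul_lt_mul_of_pos_right (by linarith) (by linarith)
    nlinarith
  have h9 : Real.log ((Nat.log 2 (n ^ 2 + 1) + 1 : ℕ) : ℝ) ≤ Real.log (3 * (1 + Real.log n)) :=
    Real.log_le_log (by positivity) (by push_cast; linarith)
  rw [Real.log_mul (by norm_num) (by positivity)] at h9
  have h10 := Real.log_le_sub_one_of_pos (show (0 : ℝ) < 3 by norm_num)
  linarith

/-- forgetting the class -/
theorem drop {Θ : Type} [Fintype Θ] {q : Θ → ℝ} (hq : IsLaw q) {α β γ δ ι : Type} (Q : Θ → α)
    (i : Θ → ι) (l : Θ → β) (j : Θ → γ) (c : Θ → δ) (B : ℝ)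
    (h : 2 * H q (fun z => ((Q z, i z), l z, j z)) ≤ H q (fun z => ((Q z, i z), l z)) +
      H q (fun z => ((Q z, i z), j z, c z)) + B) :
    2 * H q (fun z => (Q z, l z, j z)) ≤ H q (fun z => (Q z, l z)) +
      H q (fun z => (Q z, j z, c z)) + (B + 2 * H q i) := by
  have h1 : H q (fun z => (Q z, l z, j z)) ≤ H q (fun z => ((Q z, i z), l z, j z)) :=
    H_mono hq (by intro x y _ _ h; simp only [Prod.mk.injEq] at h ⊢; tauto)
  have h2 : H q (fun z => ((Q z, i z), l z)) ≤ H q (fun z => (Q z, l z)) + H q i :=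
    subadd hq (by intro x y _ _ h; simp only [Prod.mk.injEq] at h ⊢; tauto)
  have h3 : H q (fun z => ((Q z, i z), j z, c z)) ≤ H q (fun z => (Q z, j z, c z)) + H q i :=
    subadd hq (by intro x y _ _ h; simp only [Prod.mk.injEq] at h ⊢; tauto)
  linarith

/-- equal dyadic classes -/
theorem log_half {u u' : ℕ} (hu : 2 ≤ u) (h : Nat.log 2 u' = Nat.log 2 u) :
    u' ≠ 0 ∧ (u : ℝ) ≤ 2 * u' := by
  have h1 : 1 ≤ Nat.log 2 u := Nat.log_pos (by norm_num) hu
  have h0 : u' ≠ 0 := by
    rintro rfl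
    simp at h
    omega
  refine ⟨h0, ?_⟩
  have h2 : u < 2 ^ (Nat.log 2 u + 1) := Nat.lt_pow_succ_log_self (by norm_num) u
  have h3 : 2 ^ (Nat.log 2 u') ≤ u' := Nat.pow_log_le_self 2 h0
  rw [h] at h3
  have h4 : u ≤ 2 * u' := by
    rw [pow_succ] at h2
    omega
  exact_mod_cast h4

/-- the trivial count -/
theorem card_triv {d n : ℕ} {Ω : Type} [Fintype Ω] {D : Ω → Fin d → ℝ} (hfam : IsFam n D)
    (ω0 : Ω) (T : Finset Ω) (r K : ℝ) (hr : 1 ≤ r) (hK : d * (1 + Real.log n) ≤ K) :
    (T.card : ℝ) ≤ r * Real.exp K := by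
  have h0 := Pool.Agent.W975.HD.G0 d n Ω D hfam
  have hc : 0 < Fintype.card Ω := Fintype.card_pos_iff.mpr ⟨ω0⟩
  have h1 : (T.card : ℝ) ≤ Fintype.card Ω := by exact_mod_cast Finset.card_le_univ T
  have h2 : (Fintype.card Ω : ℝ) = Real.exp (Real.log (Fintype.card Ω)) :=
    (Real.exp_log (by exact_mod_cast hc)).symm
  have h3 : Real.exp (Real.log (Fintype.card Ω)) ≤ Real.exp K := Real.exp_le_exp.mpr (h0.trans hK)
  have h4 := Real.exp_pos K
  nlinarith

/-- the count from `S_PLC` -/
theorem card_plc {d : ℕ} {C r ρ K N : ℝ} (hr : 1 ≤ r) (hρ : 1 ≤ ρ)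
    (hN : N ≤ C * r * ρ ^ d) (hK : |Real.log (max 1 C)| + d * Real.log ρ ≤ K) :
    N ≤ r * Real.exp K := by
  have h1 : C ≤ Real.exp |Real.log (max 1 C)| := by
    have h2 : max 1 C = Real.exp (Real.log (max 1 C)) :=
      (Real.exp_log (lt_of_lt_of_le one_pos (le_max_left _ _))).symm
    have h3 := Real.exp_le_exp.mpr (le_abs_self (Real.log (max 1 C)))
    rw [← h2] at h3
    exact (le_max_right _ _).trans h3
  have h2 : ρ ^ d = Real.exp (d * Real.log ρ) := by
    rw [mul_comm, Real.exp_mul, Real.exp_log (by linarith), Real.rpow_natCast]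
  have h3 : C * ρ ^ d ≤ Real.exp K := by
    rw [h2]
    refine (mul_le_mul_of_nonneg_right h1 (Real.exp_pos _).le).trans ?_
    rw [← Real.exp_add]
    exact Real.exp_le_exp.mpr hK
  calc N ≤ r * (C * ρ ^ d) := by rw [show r * (C * ρ ^ d) = C * r * ρ ^ d by ring]; exact hN
    _ ≤ r * Real.exp K := mul_le_mul_of_nonneg_left h3 (by linarith)

/-- the final bookkeeping -/
theorem fin_alg (ε C1 C3 d L N S P h i : ℝ) (hε : 0 < ε) (hC1 : 0 ≤ C1) (hC3 : 0 ≤ C3)
    (hd : 0 ≤ d) (hS : 0 ≤ S)
    (hL : L ≤ ε / (C1 + 2) * N + (ε / (C1 + 2) + |Real.log (ε / (C1 + 2))|))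
    (hP : P ≤ 5 + 3 * S) (hh : h ≤ C3 + d * P) (hi : i ≤ 2 + L) :
    h + C1 * (1 + L) + 2 * i ≤ ε * N + (C3 + 5 * d + C1 + 4 +
      (C1 + 2) * (ε / (C1 + 2) + |Real.log (ε / (C1 + 2))|)) * (1 + S) := by
  have h1 : (C1 + 2) * (ε / (C1 + 2) * N) = ε * N := by
    field_simp
  have h2 := mul_le_mul_of_nonneg_left hL (by linarith : 0 ≤ C1 + 2)
  rw [mul_add, h1] at h2
  have h3 := mul_le_mul_of_nonneg_left hP hd
  have h4 : 0 ≤ (C1 + 2) * (ε / (C1 + 2) + |Real.log (ε / (C1 + 2))|) := by positivity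
  have h5 := mul_nonneg h4 hS
  have h6 := mul_nonneg hC3 hS
  have h7 := mul_nonneg hC1 hS
  have h8 := mul_nonneg hd hS
  nlinarith

theorem S_nonneg {Ω : Type} [Fintype Ω] {d n : ℕ} {A D : Ω → Fin d → ℝ} {p : Ω × Fin n → ℝ}
    {S : ℝ} {Θ : Type} [Fintype Θ] {q : Θ → ℝ} {l1 l2 l3 : Θ → Ω} {s0 s1 t t' τ v : Θ → Fin n}
    (hc : CfgU A D p S q l1 l2 l3 s0 s1 t t' τ v) : 0 ≤ S := by
  refine le_trans ?_ hc.tt'
  exact Finset.sum_nonneg fun z _ => mul_nonneg (hc.law.nonneg z) (Real.log_nonneg (le_max_left _ _))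

theorem t_fcB (hCORD : S_CORD) (hPLC : S_PLC) : S_FcB := by
  intro d ε hε
  obtain ⟨C1, hC1, hcord⟩ := hCORD d
  obtain ⟨C2, hC2, hplc⟩ := hPLC d
  refine ⟨|Real.log (max 1 C2)| + 5 * (d : ℝ) + C1 + 4 +
      (C1 + 2) * (ε / (C1 + 2) + |Real.log (ε / (C1 + 2))|), by positivity, ?_⟩
  intro n Ω _ A D hfam p S hp Θ _ q l1 l2 l3 s0 s1 t t' τ v hc
  have hq := hc.law
  have hn := hfam.pos
  have hn' : (1 : ℝ) ≤ n := by exact_mod_cast hn
  have hd : (0 : ℝ) ≤ d := Nat.cast_nonneg d
  have hpn : ∀ (i j : Fin n), 0 ≤ psi n i j := fun i j => psi_nonneg i.2 j.2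
  obtain ⟨m, hm⟩ : ∃ m : Θ → ℕ, m = fun z => (((s1 z : ℕ) : ℤ) - ((s0 z : ℕ) : ℤ)).natAbs :=
    ⟨_, rfl⟩
  have hmr : ∀ z, (m z : ℝ) = |((s0 z : ℕ) : ℝ) - ((s1 z : ℕ) : ℝ)| := by
    intro z
    rw [hm, abs_sub_comm]
    simp only [Nat.cast_natAbs, Int.cast_abs, Int.cast_sub, Int.cast_natCast]
  have hcl := cls hq hn m (by
    intro z _
    have h1 := (s1 z).2
    have h2 := (s0 z).2
    have h3 : m z ≤ n := by
      rw [hm]
      simp only
      omega
    nlinarith)
  have key := hcord n Ω A D hfam Θ (Ω × ℕ) q l1 s1 (fun z => (l3 z, Nat.log 2 (m z)))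
    (fun z => |Real.log (max 1 C2)| + d * (2 + psi n (s0 z) (s1 z))) hq (by
      intro z _
      have := hpn (s0 z) (s1 z)
      positivity) (by
      intro z hz r hr T hT
      by_cases hmz : m z ≤ 1
      · refine card_triv hfam (l1 z) T r _ hr ?_
        have h2 : psi n (s0 z) (s1 z) = Real.log n := by
          unfold psi
          rw [← hmr, max_eq_left (by exact_mod_cast hmz), div_one]
        rw [h2]
        have := abs_nonneg (Real.log (max 1 C2))
        nlinarith
      · push Not at hmz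
        have hm2 : (2 : ℝ) ≤ m z := by exact_mod_cast hmz
        have hmn : (m z : ℝ) ≤ n := by
          have h1 := (s1 z).2
          have h2 := (s0 z).2
          have h3 : m z ≤ n := by
            rw [hm]
            simp only
            omega
          exact_mod_cast h3
        have hpsi : psi n (s0 z) (s1 z) = Real.log (n / m z) := by
          unfold psi
          rw [← hmr, max_eq_right (by linarith)]
        have hge : 1 ≤ (n : ℝ) / m z := by
          rw [le_div_iff₀ (by linarith)]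
          linarith
        have hcount := hplc n Ω D hfam (D (l1 z)) (D (l3 z) - D (l1 z)) (l1 z) r
          (6 * (n / m z)) hr (by linarith) T (by
          intro ω hω
          obtain ⟨h1, z', hz', hR, hl, hcell⟩ := hT ω hω
          simp only [Prod.mk.injEq] at hR
          obtain ⟨hb, hlog⟩ := hR
          obtain ⟨hne, hle⟩ := log_half hmz hlog
          have hne' : ((s1 z' : ℕ) : ℝ) - ((s0 z' : ℕ) : ℝ) ≠ 0 := by
            intro h
            apply hne
            have h3 := hmr z'
            rw [abs_sub_comm, h, abs_zero] at h3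
            exact_mod_cast h3
          refine ⟨h1, (((s0 z : ℕ) : ℝ) - ((s0 z' : ℕ) : ℝ)) /
            (((s1 z' : ℕ) : ℝ) - ((s0 z' : ℕ) : ℝ)), ?_⟩
          have hm' : (0 : ℝ) < m z' := by
            have : 0 < m z' := Nat.pos_of_ne_zero hne
            exact_mod_cast this
          have hnorm : ‖D ω - (D (l1 z) + ((((s0 z : ℕ) : ℝ) - ((s0 z' : ℕ) : ℝ)) /
              (((s1 z' : ℕ) : ℝ) - ((s0 z' : ℕ) : ℝ))) • (D (l3 z) - D (l1 z)))‖ ≤ 3 / m z' := by
            rw [pi_norm_le_iff_of_nonneg (by positivity)]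
            intro i
            have e1 : |(A ω i + ((s1 z' : ℕ) : ℝ) * D ω i) -
                (A (l1 z) i + ((s1 z' : ℕ) : ℝ) * D (l1 z) i)| ≤ 1 := by
              have := congrFun hcell i
              simp only [cell] at this
              exact same_floor this
            have e2 : |(A ω i + ((s0 z' : ℕ) : ℝ) * D ω i) -
                (A (l3 z) i + ((s0 z' : ℕ) : ℝ) * D (l3 z) i)| ≤ 1 := by
              have := congrFun (hc.i0 z' hz') i
              rw [hl, hb] at this
              simp only [cell] at this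
              exact same_floor this
            have e3 : |(A (l1 z) i + ((s0 z : ℕ) : ℝ) * D (l1 z) i) -
                (A (l3 z) i + ((s0 z : ℕ) : ℝ) * D (l3 z) i)| ≤ 1 := by
              have := congrFun (hc.i0 z hz) i
              simp only [cell] at this
              exact same_floor this
            have e4 : (D ω - (D (l1 z) + ((((s0 z : ℕ) : ℝ) - ((s0 z' : ℕ) : ℝ)) /
                (((s1 z' : ℕ) : ℝ) - ((s0 z' : ℕ) : ℝ))) • (D (l3 z) - D (l1 z)))) i =
                (((A ω i + ((s1 z' : ℕ) : ℝ) * D ω i) -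
                (A (l1 z) i + ((s1 z' : ℕ) : ℝ) * D (l1 z) i)) -
                ((A ω i + ((s0 z' : ℕ) : ℝ) * D ω i) -
                (A (l3 z) i + ((s0 z' : ℕ) : ℝ) * D (l3 z) i)) +
                ((A (l1 z) i + ((s0 z : ℕ) : ℝ) * D (l1 z) i) -
                (A (l3 z) i + ((s0 z : ℕ) : ℝ) * D (l3 z) i))) /
                (((s1 z' : ℕ) : ℝ) - ((s0 z' : ℕ) : ℝ)) := by
              simp only [Pi.sub_apply, Pi.add_apply, Pi.smul_apply, smul_eq_mul]
              field_simp
              ring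
            rw [e4, Real.norm_eq_abs, abs_div, hmr z', abs_sub_comm ((s0 z' : ℕ) : ℝ)]
            apply div_le_div_of_nonneg_right _ (abs_nonneg _)
            rw [abs_le] at e1 e2 e3 ⊢
            constructor <;> linarith [e1.1, e1.2, e2.1, e2.2, e3.1, e3.2]
          have h5 : 3 / (m z' : ℝ) ≤ 6 / m z := by
            rw [div_le_div_iff₀ hm' (by linarith)]
            linarith
          calc (n : ℝ) * _ ≤ n * (6 / m z) := by
                apply mul_le_mul_of_nonneg_left (hnorm.trans h5) (by linarith)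
            _ = 6 * (n / m z) := by ring)
        refine card_plc hr (by linarith) hcount ?_
        rw [Real.log_mul (by norm_num) (by positivity), hpsi]
        have h6 : Real.log 6 ≤ 2 := by
          have : Real.log 6 = Real.log 2 + Real.log 3 := by
            rw [← Real.log_mul (by norm_num) (by norm_num)]
            norm_num
          have h3 : Real.log 3 ≤ 1.2 := by
            rw [Real.log_le_iff_le_exp (by norm_num)]
            have := Real.add_one_le_exp (0.2 : ℝ)
            have h2 := Real.exp_one_gt_d9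
            have h4 : Real.exp 1.2 = Real.exp 1 * Real.exp 0.2 := by
              rw [← Real.exp_add]; norm_num
            rw [h4]
            nlinarith
          have := Real.log_two_lt_d9
          linarith
        have := mul_le_mul_of_nonneg_left h6 hd
        linarith)
  have hE : ∑ z, q z * (|Real.log (max 1 C2)| + d * (2 + psi n (s0 z) (s1 z))) ≤
      |Real.log (max 1 C2)| + d * (2 + S) := by
    have h1 : ∑ z, q z * (|Real.log (max 1 C2)| + d * (2 + psi n (s0 z) (s1 z))) =
        EE q (fun z => |Real.log (max 1 C2)| + d * (2 + psi n (s0 z) (s1 z))) := rfl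
    rw [h1, EE_add (fun _ => |Real.log (max 1 C2)|) (fun z => d * (2 + psi n (s0 z) (s1 z))),
      EE_const hq, EE_mul, EE_add (fun _ => (2 : ℝ)) (fun z => psi n (s0 z) (s1 z)), EE_const hq]
    have h2 : EE q (fun z => psi n (s0 z) (s1 z)) ≤ S := hc.c1.trans hc.sep_le
    have := mul_le_mul_of_nonneg_left h2 hd
    linarith
  have hS := S_nonneg hc
  have hlog := log_small (show 0 < ε / (C1 + 2) by positivity) (Real.log_nonneg hn')
  have hfin := fin_alg ε C1 (|Real.log (max 1 C2)|) d (Real.log (1 + Real.log n)) (Real.log n) S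
    (2 + S) _ _ hε hC1 (abs_nonneg _) hd hS hlog (by linarith) hE hcl
  have hdrop := drop hq l3 (fun z => Nat.log 2 (m z)) l1 s1 (fun z => cell A D (s1 z) (l1 z))
    (Real.log n + ∑ z, q z * (|Real.log (max 1 C2)| + d * (2 + psi n (s0 z) (s1 z))) +
      C1 * (1 + Real.log (1 + Real.log n))) (by linarith [key])
  unfold FcB
  linarith

theorem t_fcA (hCORD : S_CORD) (hPLC : S_PLC) : S_FcA := by
  intro d ε hε
  obtain ⟨C1, hC1, hcord⟩ := hCORD d
  obtain ⟨C2, hC2, hplc⟩ := hPLC d
  refine ⟨|Real.log (max 1 C2)| + 5 * (d : ℝ) + C1 + 4 +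
      (C1 + 2) * (ε / (C1 + 2) + |Real.log (ε / (C1 + 2))|), by positivity, ?_⟩
  intro n Ω _ A D hfam p S hp Θ _ q l1 l2 l3 s0 s1 t t' τ v hc
  have hq := hc.law
  have hn := hfam.pos
  have hn' : (1 : ℝ) ≤ n := by exact_mod_cast hn
  have hd : (0 : ℝ) ≤ d := Nat.cast_nonneg d
  obtain ⟨Y, hY⟩ : ∃ Y : Θ → ℤ, Y = YY s0 s1 t t' := ⟨_, rfl⟩
  obtain ⟨m, hm⟩ : ∃ m : Θ → ℕ, m = fun z => (Y z).natAbs := ⟨_, rfl⟩
  have hmr : ∀ z, (m z : ℝ) = |(Y z : ℝ)| := by
    intro z
    rw [hm]
    simp only [Nat.cast_natAbs, Int.cast_abs]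
  have h9 := fun z => Pool.Agent.W505.HD.G9 n (s0 z) (s1 z) (t z) (t' z) (s0 z) (s0 z) (s0 z).2
    (s1 z).2 (t z).2 (t' z).2 (s0 z).2 (s0 z).2
  have hcl := cls hq hn m (by
    intro z _
    have h1 := (h9 z).1
    have h2 : |Y z| ≤ (n : ℤ) ^ 2 + 1 := by
      rw [hY]
      exact h1
    rw [hm]
    simp only
    rw [Int.abs_eq_natAbs] at h2
    exact_mod_cast h2)
  have key := hcord n Ω A D hfam Θ ((Ω × ℤ × (Fin d → ℤ)) × ℕ) q l3 t'
    (fun z => ((l1 z, XX A D l1 l3 s0 s1 t t' z), Nat.log 2 (m z)))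
    (fun z => |Real.log (max 1 C2)| + d * (2 + phi n (Y z))) hq (by
      intro z _
      have := phi_nonneg n (Y z)
      positivity) (by
      intro z hz r hr T hT
      by_cases hmz : m z ≤ 1
      · refine card_triv hfam (l3 z) T r _ hr ?_
        have h2 : phi n (Y z) = Real.log n := by
          unfold phi
          rw [← hmr, max_eq_left (by exact_mod_cast hmz : (m z : ℝ) ≤ 1), div_one,
            max_eq_right hn']
        rw [h2]
        have := abs_nonneg (Real.log (max 1 C2))
        nlinarith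
      · push Not at hmz
        have hm2 : (2 : ℝ) ≤ m z := by exact_mod_cast hmz
        have hphi : phi n (Y z) = Real.log (max 1 ((n : ℝ) / m z)) := by
          unfold phi
          rw [← hmr, max_eq_right (by linarith : (1 : ℝ) ≤ m z)]
        have hge : 1 ≤ max 1 ((n : ℝ) / m z) := le_max_left _ _
        have hcount := hplc n Ω D hfam (D (l1 z)) (fun i => ((XX A D l1 l3 s0 s1 t t' z).2 i : ℝ) -
          A (l1 z) i - ((XX A D l1 l3 s0 s1 t t' z).1 : ℝ) * D (l1 z) i) (l3 z) r
          (2 * max 1 ((n : ℝ) / m z)) hr (by linarith) T (by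
          intro ω hω
          obtain ⟨h1, z', hz', hR, hl, hcell⟩ := hT ω hω
          simp only [Prod.mk.injEq] at hR
          obtain ⟨⟨hb, hX⟩, hlog⟩ := hR
          obtain ⟨hne, hle⟩ := log_half hmz hlog
          have hne' : (Y z' : ℝ) ≠ 0 := by
            intro h
            apply hne
            have h3 := hmr z'
            rw [h, abs_zero] at h3
            exact_mod_cast h3
          refine ⟨h1, 1 / (Y z' : ℝ), ?_⟩
          have hm' : (0 : ℝ) < m z' := by
            have : 0 < m z' := Nat.pos_of_ne_zero hne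
            exact_mod_cast this
          have hX1 : ((XX A D l1 l3 s0 s1 t t' z).1 : ℝ) = ((s1 z' : ℕ) : ℝ) + (Y z' : ℝ) := by
            rw [← hX, hY]
            simp only [XX]
            push_cast
            ring
          have hnorm : ‖D ω - (D (l1 z) + (1 / (Y z' : ℝ)) • (fun i =>
              ((XX A D l1 l3 s0 s1 t t' z).2 i : ℝ) -
              A (l1 z) i - ((XX A D l1 l3 s0 s1 t t' z).1 : ℝ) * D (l1 z) i))‖ ≤ 1 / m z' := by
            rw [pi_norm_le_iff_of_nonneg (by positivity)]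
            intro i
            have e1 : |A (l1 z) i + ((s1 z' : ℕ) : ℝ) * D (l1 z) i + (Y z' : ℝ) * D ω i -
                ((XX A D l1 l3 s0 s1 t t' z).2 i : ℝ)| ≤ 1 := by
              have h3 : (XX A D l1 l3 s0 s1 t t' z).2 i =
                  ⌊A (l1 z) i + ((s1 z' : ℕ) : ℝ) * D (l1 z) i + (Y z' : ℝ) * D ω i⌋ := by
                rw [← hX, hY]
                simp only [XX, cz, hb, hl]
              rw [h3, abs_le]
              have h4 := Int.floor_le (A (l1 z) i + ((s1 z' : ℕ) : ℝ) * D (l1 z) i +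
                (Y z' : ℝ) * D ω i)
              have h5 := Int.lt_floor_add_one (A (l1 z) i + ((s1 z' : ℕ) : ℝ) * D (l1 z) i +
                (Y z' : ℝ) * D ω i)
              constructor <;> linarith
            have e4 : (D ω - (D (l1 z) + (1 / (Y z' : ℝ)) • (fun i =>
                ((XX A D l1 l3 s0 s1 t t' z).2 i : ℝ) -
                A (l1 z) i - ((XX A D l1 l3 s0 s1 t t' z).1 : ℝ) * D (l1 z) i))) i =
                (A (l1 z) i + ((s1 z' : ℕ) : ℝ) * D (l1 z) i + (Y z' : ℝ) * D ω i -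
                ((XX A D l1 l3 s0 s1 t t' z).2 i : ℝ)) / (Y z' : ℝ) := by
              simp only [Pi.sub_apply, Pi.add_apply, Pi.smul_apply, smul_eq_mul]
              rw [hX1]
              field_simp
              ring
            rw [e4, Real.norm_eq_abs, abs_div, hmr z']
            exact div_le_div_of_nonneg_right e1 (abs_nonneg _)
          have h5 : 1 / (m z' : ℝ) ≤ 2 / m z := by
            rw [div_le_div_iff₀ hm' (by linarith)]
            linarith
          calc (n : ℝ) * _ ≤ n * (2 / m z) := by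
                apply mul_le_mul_of_nonneg_left (hnorm.trans h5) (by linarith)
            _ = 2 * (n / m z) := by ring
            _ ≤ 2 * max 1 ((n : ℝ) / m z) := by
                apply mul_le_mul_of_nonneg_left (le_max_right _ _) (by norm_num))
        refine card_plc hr (by linarith) hcount ?_
        rw [Real.log_mul (by norm_num) (by positivity), hphi]
        have h6 : Real.log 2 ≤ 2 := by
          have := Real.log_two_lt_d9
          linarith
        have := mul_le_mul_of_nonneg_left h6 hd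
        linarith)
  have hE : ∑ z, q z * (|Real.log (max 1 C2)| + d * (2 + phi n (Y z))) ≤
      |Real.log (max 1 C2)| + d * (5 + 3 * S) := by
    have h1 : ∑ z, q z * (|Real.log (max 1 C2)| + d * (2 + phi n (Y z))) =
        EE q (fun z => |Real.log (max 1 C2)| + d * (2 + phi n (Y z))) := rfl
    rw [h1, EE_add (fun _ => |Real.log (max 1 C2)|) (fun z => d * (2 + phi n (Y z))),
      EE_const hq, EE_mul, EE_add (fun _ => (2 : ℝ)) (fun z => phi n (Y z)), EE_const hq]
    have h2 : EE q (fun z => phi n (Y z)) ≤ 3 + 3 * S := by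
      have h3 : EE q (fun z => phi n (Y z)) ≤ EE q (fun z => ((3 + psi n (t' z) (s0 z)) +
          psi n (t z) (s1 z)) + psi n (t z) (s0 z)) := by
        refine EE_mono hq fun z _ => ?_
        have h4 := (h9 z).2.1
        rw [hY]
        exact h4
      rw [EE_add (fun z => (3 + psi n (t' z) (s0 z)) + psi n (t z) (s1 z))
        (fun z => psi n (t z) (s0 z)), EE_add (fun z => (3 + psi n (t' z) (s0 z)))
        (fun z => psi n (t z) (s1 z)), EE_add (fun z => (3 : ℝ)) (fun z => psi n (t' z) (s0 z)),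
        EE_const hq] at h3
      have h5 : EE q (fun z => psi n (t z) (s0 z)) ≤ S := hc.c2.trans hc.sep_le
      have h6 : EE q (fun z => psi n (t z) (s1 z)) ≤ S := hc.c3.trans hc.sep_le
      have h7 : EE q (fun z => psi n (t' z) (s0 z)) ≤ S := hc.c4.trans hc.sep_le
      linarith
    have := mul_le_mul_of_nonneg_left h2 hd
    linarith
  have hS := S_nonneg hc
  have hlog := log_small (show 0 < ε / (C1 + 2) by positivity) (Real.log_nonneg hn')
  have hfin := fin_alg ε C1 (|Real.log (max 1 C2)|) d (Real.log (1 + Real.log n)) (Real.log n) S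
    (5 + 3 * S) _ _ hε hC1 (abs_nonneg _) hd hS hlog le_rfl hE hcl
  have hdrop := drop hq (fun z => (l1 z, XX A D l1 l3 s0 s1 t t' z)) (fun z => Nat.log 2 (m z))
    l3 t' (fun z => cell A D (t' z) (l3 z))
    (Real.log n + ∑ z, q z * (|Real.log (max 1 C2)| + d * (2 + phi n (Y z))) +
      C1 * (1 + Real.log (1 + Real.log n))) (by linarith [key])
  unfold FcA
  linarith

end Pool.Agent.Y297HK
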